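import Pool.Agent.H16.PI.Base

set_option autoImplicit false
set_option linter.unusedSectionVars false

namespace Pool.Agent.H36.PI

open Polynomial Pool.Agent Pool.Agent.Helper35 Pool.Agent.Y821.PW Pool.Agent.H16.PI

lemma roots_nodup {S : ℤ[X]} (hS : IrrQ S) : (S.map (Int.castRingHom ℂ)).roots.Nodup := by
  have hsep : (S.map (Int.castRingHom ℚ)).Separable := Irreducible.separable hS
  have h2 : ((S.map (Int.castRingHom ℚ)).map (algebraMap ℚ ℂ)).Separable := hsep.map
  have e : (S.map (Int.castRingHom ℚ)).map (algebraMap ℚ ℂ) = S.map (Int.castRingHom ℂ) := by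
    rw [Polynomial.map_map]; congr 1
  rw [e] at h2
  exact nodup_roots h2

theorem stC (hA : StA) : StC := by
  classical
  intro R S P hd hS hP hdvd hcop
  have hS0 := hS.ne_zero
  have hP0 := hP.ne_zero
  have hprod := hA R S hd hS0
  obtain ⟨E, hE⟩ : ∃ E, E = NR R S := ⟨_, rfl⟩
  rw [← hE] at hprod ⊢
  have hlc : ((S.leadingCoeff : ℂ) ^ R.natDegree) ≠ 0 := by
    apply pow_ne_zero
    exact_mod_cast leadingCoeff_ne_zero.2 hS0
  have hmon : ((S.map (Int.castRingHom ℂ)).roots.map
      (fun a : ℂ => (X : ℂ[X]) - C (aeval a R))).prod.Monic :=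
    monic_multiset_prod_of_monic _ _ (fun a _ => monic_X_sub_C _)
  have hEC : E.map (Int.castRingHom ℂ) ≠ 0 := by
    rw [hprod]
    exact mul_ne_zero (C_ne_zero.2 hlc) hmon.ne_zero
  have hE0 : E ≠ 0 := by
    rintro rfl
    simp at hEC
  have hinj : Function.Injective (Int.castRingHom ℂ) := RingHom.injective_int _
  have hroots : (E.map (Int.castRingHom ℂ)).roots =
      (S.map (Int.castRingHom ℂ)).roots.map (fun a : ℂ => aeval a R) := by
    rw [hprod, roots_C_mul _ hlc]
    have : ((S.map (Int.castRingHom ℂ)).roots.map (fun a : ℂ => (X : ℂ[X]) - C (aeval a R))) =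
        ((S.map (Int.castRingHom ℂ)).roots.map (fun a : ℂ => aeval a R)).map
          (fun b : ℂ => (X : ℂ[X]) - C b) := by
      rw [Multiset.map_map]
      rfl
    rw [this, roots_multiset_prod_X_sub_C]
  have hcardS : Multiset.card (S.map (Int.castRingHom ℂ)).roots = S.natDegree := by
    rw [← natDegree_map_eq_of_injective hinj S]
    exact (splits_iff_card_roots.1 (IsAlgClosed.splits _))
  have hcardE : Multiset.card (E.map (Int.castRingHom ℂ)).roots = E.natDegree := by
    rw [← natDegree_map_eq_of_injective hinj E]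
    exact (splits_iff_card_roots.1 (IsAlgClosed.splits _))
  have hEdeg : E.natDegree = S.natDegree := by
    rw [← hcardE, ← hcardS, hroots, Multiset.card_map]
  have hroot : ∀ a : ℂ, aeval a S = 0 → aeval (aeval a R) P = 0 := by
    intro a ha
    obtain ⟨W, hW⟩ := hdvd
    rw [← aeval_comp, hW, map_mul, ha, zero_mul]
  have hER : ∀ b : ℂ, aeval b E = 0 → ∃ a : ℂ, aeval a S = 0 ∧ aeval a R = b := by
    intro b hb
    have h1 : b ∈ (E.map (Int.castRingHom ℂ)).roots := by
      rw [mem_roots hEC, IsRoot.def, eval_map]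
      exact hb
    rw [hroots, Multiset.mem_map] at h1
    obtain ⟨a, ha, rfl⟩ := h1
    refine ⟨a, ?_, rfl⟩
    have h2 := isRoot_of_mem_roots ha
    rw [IsRoot.def, eval_map] at h2
    exact h2
  have hEq0 : E.map (Int.castRingHom ℚ) ≠ 0 :=
    (Polynomial.map_ne_zero_iff (RingHom.injective_int _)).mpr hE0
  have hdvdF : ∀ F : ℚ[X], F ∣ E.map (Int.castRingHom ℚ) → F.natDegree ≠ 0 →
      P.map (Int.castRingHom ℚ) ∣ F := by
    intro F hF hFd
    have hFd' : F.degree ≠ 0 := fun h => hFd (natDegree_eq_of_degree_eq_some h)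
    obtain ⟨b, hb⟩ := IsAlgClosed.exists_aeval_eq_zero ℂ F hFd'
    have hEb : aeval b E = 0 := by
      obtain ⟨W, hW⟩ := hF
      rw [← aevalC_map, hW, map_mul, hb, zero_mul]
    obtain ⟨a, ha, rfl⟩ := hER b hEb
    have h1 := hroot _ ha
    have hint : IsIntegral ℚ (aeval a R) := by
      rw [← isAlgebraic_iff_isIntegral]
      refine ⟨F, ?_, hb⟩
      rintro rfl
      simp at hFd
    have h3 : minpoly ℚ (aeval a R) ∣ P.map (Int.castRingHom ℚ) :=
      minpoly.dvd ℚ _ (by rw [aevalC_map]; exact h1)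
    have h4 : minpoly ℚ (aeval a R) ∣ F := minpoly.dvd ℚ _ hb
    exact ((minpoly.irreducible hint).associated_of_dvd hP h3).symm.dvd.trans h4
  have hPnu : ¬ IsUnit (P.map (Int.castRingHom ℚ)) := hP.not_isUnit
  obtain ⟨t, F, hF1, hF2⟩ := (FiniteMultiplicity.of_not_isUnit hPnu hEq0).exists_eq_pow_mul_and_not_dvd
    |> fun h => (⟨_, h⟩ : ∃ t : ℕ, ∃ F : ℚ[X], E.map (Int.castRingHom ℚ) =
      (P.map (Int.castRingHom ℚ)) ^ t * F ∧ ¬ (P.map (Int.castRingHom ℚ)) ∣ F)
  have hFd : F.natDegree = 0 := by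
    by_contra h
    exact hF2 (hdvdF F (by rw [hF1]; exact dvd_mul_left _ _) h)
  have hF0 : F ≠ 0 := by
    rintro rfl
    rw [mul_zero] at hF1
    exact hEq0 hF1
  have hdeg : S.natDegree = t * P.natDegree := by
    have h1 := congrArg natDegree hF1
    rw [natDegree_mul (pow_ne_zero _ (Irreducible.ne_zero hP)) hF0, natDegree_pow, hFd, add_zero,
      natDegree_map_eq_of_injective (RingHom.injective_int _),
      natDegree_map_eq_of_injective (RingHom.injective_int _), hEdeg] at h1
    exact h1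
  have hSpos := hS.natDegree_pos
  have ht0 : t ≠ 0 := by rintro rfl; omega
  -- the multiplicity
  have htm : t ≤ R.natDegree := by
    have hSd : (S.map (Int.castRingHom ℚ)).degree ≠ 0 := by
      intro h
      have := natDegree_eq_zero_iff_degree_le_zero.2 h.le
      rw [natDegree_map_eq_of_injective (RingHom.injective_int _)] at this
      omega
    obtain ⟨a, ha⟩ := IsAlgClosed.exists_aeval_eq_zero ℂ _ hSd
    rw [aevalC_map] at ha
    have hPa := hroot a ha
    obtain ⟨b, hb⟩ : ∃ b : ℂ, b = aeval a R := ⟨_, rfl⟩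
    rw [← hb] at hPa
    have hXa : (X - C b) ^ t ∣ E.map (Int.castRingHom ℂ) := by
      have e1 : E.map (Int.castRingHom ℂ) =
          (E.map (Int.castRingHom ℚ)).map (algebraMap ℚ ℂ) := by
        rw [Polynomial.map_map]; congr 1
      rw [e1, hF1, Polynomial.map_mul, Polynomial.map_pow]
      refine Dvd.dvd.mul_right (pow_dvd_pow_of_dvd ?_ t) _
      rw [dvd_iff_isRoot, IsRoot.def, eval_map_algebraMap, aevalC_map]
      exact hPa
    have h1 := (le_rootMultiplicity_iff hEC).2 hXa
    rw [← count_roots, hroots, Multiset.count_map] at h1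
    refine h1.trans ?_
    obtain ⟨G, hG⟩ : ∃ G : ℂ[X], G = R.map (Int.castRingHom ℂ) - C b := ⟨_, rfl⟩
    have hRd : (R.map (Int.castRingHom ℂ)).natDegree = R.natDegree :=
      natDegree_map_eq_of_injective hinj R
    have hGd : G.natDegree = R.natDegree := by
      rw [hG, natDegree_sub_C, hRd]
    have hG0 : G ≠ 0 := by
      rintro h
      rw [h, natDegree_zero] at hGd
      omega
    have hle : Multiset.filter (fun x => b = aeval x R) (S.map (Int.castRingHom ℂ)).roots ≤
        G.roots := by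
      rw [Multiset.le_iff_subset ((roots_nodup hS).filter _)]
      intro x hx
      rw [Multiset.mem_filter] at hx
      rw [mem_roots hG0, IsRoot.def, hG, eval_sub, eval_C, eval_map]
      have : eval₂ (Int.castRingHom ℂ) x R = aeval x R := rfl
      rw [this, ← hx.2, sub_self]
    refine (Multiset.card_le_card hle).trans ?_
    rw [← hGd]
    exact card_roots' G
  have ht1 : t = 1 := by
    have h1 : t ∣ R.natDegree.factorial := Nat.dvd_factorial (by omega) htm
    have h2 : t ∣ S.natDegree := ⟨_, hdeg⟩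
    exact Nat.dvd_one.1 (hcop ▸ Nat.dvd_gcd h2 h1)
  rw [ht1, one_mul] at hdeg
  refine ⟨hdeg.symm, ?_⟩
  obtain ⟨p, hp⟩ : ∃ p, p = P.primPart := ⟨_, rfl⟩
  obtain ⟨g, hg⟩ : ∃ g, g = P.content := ⟨_, rfl⟩
  have hPfac : P = C g * p := by rw [hg, hp]; exact P.eq_C_content_mul_primPart
  have hg0 : g ≠ 0 := by
    rintro rfl
    rw [C_0, zero_mul] at hPfac
    exact hP0 hPfac
  have hpprim : p.IsPrimitive := by rw [hp]; exact P.isPrimitive_primPart
  have hpE : p ∣ E := by
    have h1 : p.map (Int.castRingHom ℚ) ∣ P.map (Int.castRingHom ℚ) := by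
      rw [hPfac, Polynomial.map_mul]; exact dvd_mul_left _ _
    have h2 : p.map (Int.castRingHom ℚ) ∣ E.map (Int.castRingHom ℚ) := by
      refine h1.trans ?_
      rw [hF1, ht1, pow_one]
      exact dvd_mul_right _ _
    exact (IsPrimitive.Int.dvd_iff_map_cast_dvd_map_cast _ _ hpprim).2 h2
  obtain ⟨W, hW⟩ := hpE
  have hp0 : p ≠ 0 := by rintro rfl; rw [zero_mul] at hW; exact hE0 hW
  have hW0 : W ≠ 0 := by rintro rfl; rw [mul_zero] at hW; exact hE0 hW
  have hpd : p.natDegree = P.natDegree := by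
    rw [hPfac, natDegree_C_mul hg0]
  have hWd : W.natDegree = 0 := by
    have h1 := congrArg natDegree hW
    rw [natDegree_mul hp0 hW0] at h1
    omega
  refine ⟨g, W.coeff 0, p, hg0, ?_, hPfac, ?_⟩
  · intro h
    apply hW0
    rw [eq_C_of_natDegree_eq_zero hWd, h, C_0]
  · rw [hW, mul_comm]
    congr 1
    exact eq_C_of_natDegree_eq_zero hWd

end Pool.Agent.H36.PI
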